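import Pool.Agent.Helper27.HZ.Stm

/-!
# Continuity and compactness (helper27's project HZ, piece H2; written by helper20)
-/

set_option autoImplicit false
set_option linter.unusedSectionVars false

open scoped BigOperators
open MvPolynomial

namespace Pool.Agent.Helper20.HZ

open Pool.Agent.Helper27.HZ

/-! ### continuous families of polynomials -/

section
variable {Z : Type} [TopologicalSpace Z] {τ : Type} [Fintype τ] [DecidableEq τ]

/-- families of polynomials which depend continuously on a parameter -/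
def CF (g : Z → S τ) : Prop :=
  ∃ (ι : Type) (_ : Fintype ι) (c : ι → Z → ℂ) (q : ι → S τ), (∀ s, Continuous (c s)) ∧
    ∀ z, g z = ∑ s, C (c s z) * q s

theorem CF.add {g h : Z → S τ} (hg : CF g) (hh : CF h) : CF fun z => g z + h z := by
  obtain ⟨ι, _, c, q, hc, he⟩ := hg
  obtain ⟨ι', _, c', q', hc', he'⟩ := hh
  refine ⟨ι ⊕ ι', inferInstance, Sum.elim c c', Sum.elim q q', ?_, ?_⟩
  · rintro (s | s)
    · exact hc s
    · exact hc' s
  · intro z
    show g z + h z = _
    rw [he, he', Fintype.sum_sum_type]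
    rfl

theorem CF.mul {g h : Z → S τ} (hg : CF g) (hh : CF h) : CF fun z => g z * h z := by
  obtain ⟨ι, _, c, q, hc, he⟩ := hg
  obtain ⟨ι', _, c', q', hc', he'⟩ := hh
  refine ⟨ι × ι', inferInstance, fun s z => c s.1 z * c' s.2 z, fun s => q s.1 * q' s.2, ?_, ?_⟩
  · exact fun s => (hc s.1).mul (hc' s.2)
  · intro z
    show g z * h z = _
    rw [he, he', Finset.sum_mul_sum, Fintype.sum_prod_type]
    refine Finset.sum_congr rfl fun a _ => Finset.sum_congr rfl fun b _ => ?_
    rw [C_mul]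
    ring

theorem CF.cst {c : Z → ℂ} (hc : Continuous c) : CF (τ := τ) fun z => C (c z) :=
  ⟨Unit, inferInstance, fun _ => c, fun _ => 1, fun _ => hc, fun z => by simp⟩

theorem CF.fix (q : S τ) : CF fun _ : Z => q :=
  ⟨Unit, inferInstance, fun _ _ => 1, fun _ => q, fun _ => continuous_const, fun z => by simp⟩

theorem CF.sum {ι : Type*} (s : Finset ι) {g : ι → Z → S τ} (hg : ∀ i ∈ s, CF (g i)) :
    CF fun z => ∑ i ∈ s, g i z := by
  classical
  induction s using Finset.induction_on with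
  | empty => simpa using CF.fix (0 : S τ)
  | insert a s ha ih =>
    have h1 := (hg a (Finset.mem_insert_self a s)).add
      (ih fun i hi => hg i (Finset.mem_insert_of_mem hi))
    refine cast ?_ h1
    congr 1
    funext z
    rw [Finset.sum_insert ha]

theorem CF.prod {ι : Type*} (s : Finset ι) {g : ι → Z → S τ} (hg : ∀ i ∈ s, CF (g i)) :
    CF fun z => ∏ i ∈ s, g i z := by
  classical
  induction s using Finset.induction_on with
  | empty => simpa using CF.fix (1 : S τ)
  | insert a s ha ih =>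
    have h1 := (hg a (Finset.mem_insert_self a s)).mul
      (ih fun i hi => hg i (Finset.mem_insert_of_mem hi))
    refine cast ?_ h1
    congr 1
    funext z
    rw [Finset.prod_insert ha]

theorem CF.cont {g : Z → S τ} (hg : CF g) : Continuous fun z => E (g z) := by
  obtain ⟨ι, _, c, q, hc, he⟩ := hg
  have : (fun z => E (g z)) = fun z => ∑ s, c s z * E (q s) := by
    funext z
    rw [he, map_sum]
    exact Finset.sum_congr rfl fun s _ => E_C_mul _ _
  rw [this]
  exact continuous_finsetSum _ fun s _ => (hc s).mul continuous_const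

theorem CF.det {J : Type} [Fintype J] [DecidableEq J] {M : Z → Matrix J J (S τ)}
    (h : ∀ i j, CF fun z => M z i j) : CF fun z => (M z).det := by
  have : (fun z => (M z).det) = fun z => ∑ σ : Equiv.Perm J,
      ((Equiv.Perm.sign σ : ℤ) : S τ) * ∏ i, M z (σ i) i := by
    funext z
    rw [Matrix.det_apply']
  rw [this]
  exact CF.sum _ fun σ _ => (CF.fix _).mul (CF.prod _ fun i _ => h _ _)

end

/-! ### the admissible matrices -/

section
variable {J : Type} [Fintype J] [DecidableEq J] {r : ℕ}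

theorem hf_two (M : Matrix J J ℂ) (i j : J) (w : ℂ) :
    hf M (fun a => (if a = i then 1 else 0) + w * (if a = j then 1 else 0)) =
      M i i + w * M i j + (starRingEnd ℂ) w * M j i + (starRingEnd ℂ) w * w * M j j := by
  unfold hf
  have e : ∀ a b, M a b * ((starRingEnd ℂ) ((if a = i then 1 else 0) + w * (if a = j then 1 else 0)) *
      ((if b = i then 1 else 0) + w * (if b = j then 1 else 0))) =
      (if a = i then (if b = i then M a b else 0) else 0) +
      w * (if a = i then (if b = j then M a b else 0) else 0) +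
      (starRingEnd ℂ) w * (if a = j then (if b = i then M a b else 0) else 0) +
      (starRingEnd ℂ) w * w * (if a = j then (if b = j then M a b else 0) else 0) := by
    intro a b
    split_ifs <;> simp <;> ring
  simp only [e, Finset.sum_add_distrib, ← Finset.mul_sum]
  simp

theorem hq_one (M : Matrix J J ℂ) (hM : Hm M) (i j : J) :
    hq M (fun a => (if a = i then 1 else 0) + 1 * (if a = j then 1 else 0)) =
      (M i i).re + (M j j).re + 2 * (M i j).re := by
  unfold hq
  rw [hf_two, hM i j]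
  simp
  ring

theorem hq_neg_one (M : Matrix J J ℂ) (hM : Hm M) (i j : J) :
    hq M (fun a => (if a = i then 1 else 0) + (-1) * (if a = j then 1 else 0)) =
      (M i i).re + (M j j).re - 2 * (M i j).re := by
  unfold hq
  rw [hf_two, hM i j]
  simp
  ring

theorem hq_I (M : Matrix J J ℂ) (hM : Hm M) (i j : J) :
    hq M (fun a => (if a = i then 1 else 0) + Complex.I * (if a = j then 1 else 0)) =
      (M i i).re + (M j j).re - 2 * (M i j).im := by
  unfold hq
  rw [hf_two, hM i j]
  simp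
  ring

theorem hq_neg_I (M : Matrix J J ℂ) (hM : Hm M) (i j : J) :
    hq M (fun a => (if a = i then 1 else 0) + (-Complex.I) * (if a = j then 1 else 0)) =
      (M i i).re + (M j j).re + 2 * (M i j).im := by
  unfold hq
  rw [hf_two, hM i j]
  simp
  ring

theorem diag_nonneg {θ : ℝ} {A0 : Matrix J J ℂ} {A : Fin r → Matrix J J ℂ} (h : AdH θ A0 A)
    (a : J) : 0 ≤ (A0 a a).re := by
  have h1 := h.nonneg (fun b => (if b = a then 1 else 0) + 0 * (if b = a then 1 else 0))
  unfold hq at h1
  rw [hf_two] at h1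
  simpa using h1

theorem trace_nonneg {θ : ℝ} {A0 : Matrix J J ℂ} {A : Fin r → Matrix J J ℂ} (h : AdH θ A0 A) :
    0 ≤ A0.trace.re := by
  unfold Matrix.trace
  rw [Complex.re_sum]
  exact Finset.sum_nonneg fun a _ => diag_nonneg h a

theorem bound0 {θ : ℝ} {A0 : Matrix J J ℂ} {A : Fin r → Matrix J J ℂ} (h : AdH θ A0 A)
    {c : ℝ} (hc : A0.trace.re ≤ c) (i : J) : (A0 i i).re ≤ c := by
  refine le_trans ?_ hc
  unfold Matrix.trace
  rw [Complex.re_sum]
  exact Finset.single_le_sum (f := fun a => (A0.diag a).re) (fun a _ => diag_nonneg h a)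
    (Finset.mem_univ i)

theorem norm_le_of {z : ℂ} {c : ℝ} (h1 : |z.re| ≤ c) (h2 : |z.im| ≤ c) : ‖z‖ ≤ 2 * c := by
  have := Complex.norm_le_abs_re_add_abs_im z
  linarith

theorem bound1 {θ : ℝ} {A0 : Matrix J J ℂ} {A : Fin r → Matrix J J ℂ} (h : AdH θ A0 A)
    {c : ℝ} (hc : A0.trace.re ≤ c) (i j : J) : ‖A0 i j‖ ≤ 2 * c := by
  have h4 := bound0 h hc i
  have h5 := bound0 h hc j
  have h1 := h.nonneg (fun a => (if a = i then 1 else 0) + 1 * (if a = j then 1 else 0))
  have h2 := h.nonneg (fun a => (if a = i then 1 else 0) + (-1) * (if a = j then 1 else 0))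
  have h6 := h.nonneg (fun a => (if a = i then 1 else 0) + Complex.I * (if a = j then 1 else 0))
  have h7 := h.nonneg (fun a => (if a = i then 1 else 0) + (-Complex.I) * (if a = j then 1 else 0))
  rw [hq_one _ h.herm0] at h1
  rw [hq_neg_one _ h.herm0] at h2
  rw [hq_I _ h.herm0] at h6
  rw [hq_neg_I _ h.herm0] at h7
  refine norm_le_of ?_ ?_
  · rw [abs_le]
    constructor <;> linarith
  · rw [abs_le]
    constructor <;> linarith

theorem hq_le {θ : ℝ} (hθ0 : 0 ≤ θ) (hθ : θ < 1) {A0 : Matrix J J ℂ}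
    {A : Fin r → Matrix J J ℂ} (h : AdH θ A0 A) (k : Fin r) (x : J → ℂ) :
    |hq (A k) x| ≤ hq A0 x := by
  refine abs_le_of_sq_le_sq ?_ (h.nonneg x)
  have h1 := h.bd x
  have h2 : hq (A k) x ^ 2 ≤ ∑ k, hq (A k) x ^ 2 :=
    Finset.single_le_sum (f := fun k => hq (A k) x ^ 2) (fun k _ => sq_nonneg _) (Finset.mem_univ k)
  have h3 : θ ^ 2 ≤ 1 := by nlinarith
  nlinarith [mul_le_mul_of_nonneg_right h3 (sq_nonneg (hq A0 x))]

theorem bound2 {θ : ℝ} (hθ0 : 0 ≤ θ) (hθ : θ < 1) {A0 : Matrix J J ℂ}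
    {A : Fin r → Matrix J J ℂ} (h : AdH θ A0 A) {c : ℝ} (hc : A0.trace.re ≤ c) (k : Fin r)
    (i j : J) : ‖A k i j‖ ≤ 2 * c := by
  have h4 := bound0 h hc i
  have h5 := bound0 h hc j
  have h1 := hq_le hθ0 hθ h k (fun a => (if a = i then 1 else 0) + 1 * (if a = j then 1 else 0))
  have h2 := hq_le hθ0 hθ h k (fun a => (if a = i then 1 else 0) + (-1) * (if a = j then 1 else 0))
  have h6 := hq_le hθ0 hθ h k
    (fun a => (if a = i then 1 else 0) + Complex.I * (if a = j then 1 else 0))
  have h7 := hq_le hθ0 hθ h k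
    (fun a => (if a = i then 1 else 0) + (-Complex.I) * (if a = j then 1 else 0))
  rw [hq_one _ h.herm0, hq_one _ (h.herm k), abs_le] at h1
  rw [hq_neg_one _ h.herm0, hq_neg_one _ (h.herm k), abs_le] at h2
  rw [hq_I _ h.herm0, hq_I _ (h.herm k), abs_le] at h6
  rw [hq_neg_I _ h.herm0, hq_neg_I _ (h.herm k), abs_le] at h7
  refine norm_le_of ?_ ?_
  · rw [abs_le]
    constructor <;> linarith [h1.1, h1.2, h2.1, h2.2]
  · rw [abs_le]
    constructor <;> linarith [h6.1, h6.2, h7.1, h7.2]

end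

/-! ### compactness -/

section
variable {n p r : ℕ}

theorem Fz_cont : Continuous (Fz (n := n) (p := p) (r := r)) := by
  unfold Fz FF
  refine CF.cont (CF.det fun i j => ?_)
  simp only [Matrix.of_apply, GG]
  refine CF.add (CF.cst ?_) (CF.mul (CF.cst ?_) (CF.sum _ fun a _ => CF.mul (CF.cst ?_) (CF.fix _)))
  · by_cases h : i = j
    · simp only [h, if_true]
      fun_prop
    · simp only [h, if_false]
      fun_prop
  · fun_prop
  · obtain ⟨s, k | k⟩ := a
    · simp only [Mk, Matrix.smul_apply, Matrix.of_apply, smul_eq_mul]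
      fun_prop
    · simp only [Mk, Matrix.of_apply]
      fun_prop

theorem Zer_closed (θ : ℝ) : IsClosed (Zer n p r θ) := by
  have e : Zer n p r θ =
      {z : ZZ n p r | ∀ s i j, z.1 s j i = (starRingEnd ℂ) (z.1 s i j)} ∩
      ({z : ZZ n p r | ∀ s k i j, z.2.1 s k j i = (starRingEnd ℂ) (z.2.1 s k i j)} ∩
      ({z : ZZ n p r | ∀ s x, 0 ≤ hq (Matrix.of (z.1 s)) x} ∩
      ({z : ZZ n p r | ∀ s x, ∑ k, hq (Matrix.of (z.2.1 s k)) x ^ 2 ≤
        θ ^ 2 * hq (Matrix.of (z.1 s)) x ^ 2} ∩
      ({z : ZZ n p r | ∀ i, z.2.2 i ∈ Set.Icc 0 Real.pi} ∩ {z : ZZ n p r | Fz z = 0})))) := by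
    ext z
    constructor
    · rintro ⟨h1, h2, h3⟩
      exact ⟨fun s => (h1 s).herm0, fun s => (h1 s).herm, fun s => (h1 s).nonneg,
        fun s => (h1 s).bd, h2, h3⟩
    · rintro ⟨a, b, c, d, h2, h3⟩
      exact ⟨fun s => ⟨a s, b s, c s, d s⟩, h2, h3⟩
  rw [e]
  have q0 : ∀ s x, Continuous fun z : ZZ n p r => hq (Matrix.of (z.1 s)) x := by
    intro s x
    unfold hq hf
    simp only [Matrix.of_apply]
    refine Complex.continuous_re.comp ?_
    fun_prop
  have q1 : ∀ s k x, Continuous fun z : ZZ n p r => hq (Matrix.of (z.2.1 s k)) x := by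
    intro s k x
    unfold hq hf
    simp only [Matrix.of_apply]
    refine Complex.continuous_re.comp ?_
    fun_prop
  have hall : ∀ {ι : Type} (P : ι → Set (ZZ n p r)), (∀ i, IsClosed (P i)) →
      IsClosed {z | ∀ i, z ∈ P i} := by
    intro ι P hP
    have : {z | ∀ i, z ∈ P i} = ⋂ i, P i := by
      ext z
      simp
    rw [this]
    exact isClosed_iInter hP
  refine IsClosed.inter ?_ (IsClosed.inter ?_ (IsClosed.inter ?_ (IsClosed.inter ?_
    (IsClosed.inter ?_ ?_))))
  · exact hall (fun s => {z | ∀ i j, z.1 s j i = (starRingEnd ℂ) (z.1 s i j)}) fun s =>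
      hall (fun i => {z | ∀ j, z.1 s j i = (starRingEnd ℂ) (z.1 s i j)}) fun i =>
      hall (fun j => {z | z.1 s j i = (starRingEnd ℂ) (z.1 s i j)}) fun j =>
        isClosed_eq (by fun_prop) (Complex.continuous_conj.comp (by fun_prop))
  · exact hall (fun s => {z | ∀ k i j, z.2.1 s k j i = (starRingEnd ℂ) (z.2.1 s k i j)}) fun s =>
      hall (fun k => {z | ∀ i j, z.2.1 s k j i = (starRingEnd ℂ) (z.2.1 s k i j)}) fun k =>
      hall (fun i => {z | ∀ j, z.2.1 s k j i = (starRingEnd ℂ) (z.2.1 s k i j)}) fun i =>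
      hall (fun j => {z | z.2.1 s k j i = (starRingEnd ℂ) (z.2.1 s k i j)}) fun j =>
        isClosed_eq (by fun_prop) (Complex.continuous_conj.comp (by fun_prop))
  · exact hall (fun s => {z | ∀ x, 0 ≤ hq (Matrix.of (z.1 s)) x}) fun s =>
      hall (fun x => {z | 0 ≤ hq (Matrix.of (z.1 s)) x}) fun x =>
      isClosed_le continuous_const (q0 s x)
  · exact hall (fun s => {z | ∀ x, ∑ k, hq (Matrix.of (z.2.1 s k)) x ^ 2 ≤
      θ ^ 2 * hq (Matrix.of (z.1 s)) x ^ 2}) fun s =>
      hall (fun x => {z | ∑ k, hq (Matrix.of (z.2.1 s k)) x ^ 2 ≤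
      θ ^ 2 * hq (Matrix.of (z.1 s)) x ^ 2}) fun x =>
      isClosed_le (continuous_finsetSum _ fun k _ => (q1 s k x).pow 2)
        (continuous_const.mul ((q0 s x).pow 2))
  · exact hall (fun i => {z | z.2.2 i ∈ Set.Icc 0 Real.pi}) fun i =>
      isClosed_Icc.preimage (by fun_prop)
  · exact isClosed_eq Fz_cont continuous_const

/-- there is a zero of minimal trace -/
theorem cpt : CptStm := by
  intro n p r θ hθ0 hθ hne
  obtain ⟨z0, hz0⟩ := hne
  set c := ∑ s, (Matrix.of (z0.1 s)).trace.re with hc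
  have htr : Continuous fun z : ZZ n p r => ∑ s, (Matrix.of (z.1 s)).trace.re := by
    unfold Matrix.trace
    simp only [Matrix.diag_apply, Matrix.of_apply]
    refine continuous_finsetSum _ fun s _ => Complex.continuous_re.comp ?_
    fun_prop
  set K : Set (ZZ n p r) := Zer n p r θ ∩ {z | ∑ s, (Matrix.of (z.1 s)).trace.re ≤ c} with hK
  have hKc : IsClosed K := (Zer_closed θ).inter (isClosed_le htr continuous_const)
  set B : Set (ZZ n p r) :=
    (Set.pi Set.univ fun _ => Set.pi Set.univ fun _ => Set.pi Set.univ fun _ =>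
      Metric.closedBall (0 : ℂ) (2 * c)) ×ˢ
    ((Set.pi Set.univ fun _ => Set.pi Set.univ fun _ => Set.pi Set.univ fun _ =>
      Set.pi Set.univ fun _ => Metric.closedBall (0 : ℂ) (2 * c)) ×ˢ
      (Set.pi Set.univ fun _ => Set.Icc 0 Real.pi)) with hB
  have hBc : IsCompact B := by
    refine IsCompact.prod ?_ (IsCompact.prod ?_ ?_)
    · exact isCompact_univ_pi fun _ => isCompact_univ_pi fun _ => isCompact_univ_pi fun _ =>
        isCompact_closedBall _ _
    · exact isCompact_univ_pi fun _ => isCompact_univ_pi fun _ => isCompact_univ_pi fun _ =>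
        isCompact_univ_pi fun _ => isCompact_closedBall _ _
    · exact isCompact_univ_pi fun _ => isCompact_Icc
  have hsub : K ⊆ B := by
    rintro z ⟨⟨h1, h2, -⟩, h3⟩
    have h4 : ∀ s, (Matrix.of (z.1 s)).trace.re ≤ c := fun s =>
      le_trans (Finset.single_le_sum (f := fun s => (Matrix.of (z.1 s)).trace.re)
        (fun a _ => trace_nonneg (h1 a)) (Finset.mem_univ s)) h3
    refine ⟨fun s _ i _ j _ => ?_, fun s _ k _ i _ j _ => ?_, fun i _ => h2 i⟩
    · rw [mem_closedBall_zero_iff]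
      exact bound1 (h1 s) (h4 s) i j
    · rw [mem_closedBall_zero_iff]
      exact bound2 hθ0 hθ (h1 s) (h4 s) k i j
  have hcomp : IsCompact K := hBc.of_isClosed_subset hKc hsub
  obtain ⟨z, hz, hmin⟩ := hcomp.exists_isMinOn ⟨z0, hz0, le_refl c⟩ htr.continuousOn
  refine ⟨z, hz.1, fun w hw => ?_⟩
  by_cases h : ∑ s, (Matrix.of (w.1 s)).trace.re ≤ c
  · exact hmin ⟨hw, h⟩
  · push Not at h
    exact le_trans hz.2 h.le

end

end Pool.Agent.Helper20.HZ
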