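import Pool.Agent.Helper27.HZ.Stm2
import Pool.Agent.Helper27.HY.Mat

/-!
# Nonnegative curvature operators and one Lorentzian form
(helper27's project HZ, pieces K2 and K3; written by helper20)
-/

set_option autoImplicit false
set_option linter.unusedSectionVars false

open scoped BigOperators

namespace Pool.Agent.Helper20.HZ

open Pool.Agent.Helper27.HZ
open Pool.Agent.Helper27.HY (Bf Cv Rep qf psd_dec)

section
variable {J : Type} [Fintype J] [DecidableEq J]

/-- the matrix of the curvature operator -/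
def opM (R : J → J → J → J → ℝ) : Matrix (J × J) (J × J) ℝ :=
  fun p q => R p.1 p.2 q.1 q.2

theorem inner_skew {R : J → J → J → J → ℝ} (hR : Cv R) (i j : J) (x : J × J → ℝ) :
    ∑ k, ∑ l, R i j k l * ((x (k, l) - x (l, k)) / 2) = ∑ k, ∑ l, R i j k l * x (k, l) := by
  obtain ⟨h1, h2, _⟩ := hR
  have h3 : ∀ k l, R i j l k = - R i j k l := by
    intro k l
    rw [← h2 i j l k, ← h2 i j k l, h1 k l i j]
  have e1 : ∑ k, ∑ l, R i j k l * x (l, k) = - ∑ k, ∑ l, R i j k l * x (k, l) := by
    rw [Finset.sum_comm, ← Finset.sum_neg_distrib]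
    refine Finset.sum_congr rfl fun k _ => ?_
    rw [← Finset.sum_neg_distrib]
    refine Finset.sum_congr rfl fun l _ => ?_
    rw [h3]
    ring
  have e2 : ∑ k, ∑ l, R i j k l * ((x (k, l) - x (l, k)) / 2) =
      (∑ k, ∑ l, R i j k l * x (k, l) - ∑ k, ∑ l, R i j k l * x (l, k)) / 2 := by
    rw [← Finset.sum_sub_distrib, Finset.sum_div]
    refine Finset.sum_congr rfl fun k _ => ?_
    rw [← Finset.sum_sub_distrib, Finset.sum_div]
    refine Finset.sum_congr rfl fun l _ => ?_
    ring
  rw [e2, e1]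
  ring

theorem qf_opM {R : J → J → J → J → ℝ} (hR : Cv R) (x : J × J → ℝ) :
    qf (opM R) x = ∑ i, ∑ j, ∑ k, ∑ l, R i j k l *
      (((x (i, j) - x (j, i)) / 2) * ((x (k, l) - x (l, k)) / 2)) := by
  have h2 := hR.2.1
  have e0 : qf (opM R) x = ∑ i, ∑ j, x (i, j) * ∑ k, ∑ l, R i j k l * x (k, l) := by
    unfold qf opM
    rw [Fintype.sum_prod_type]
    refine Finset.sum_congr rfl fun i _ => Finset.sum_congr rfl fun j _ => ?_
    rw [Fintype.sum_prod_type, Finset.mul_sum]
    refine Finset.sum_congr rfl fun k _ => ?_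
    rw [Finset.mul_sum]
    refine Finset.sum_congr rfl fun l _ => ?_
    ring
  have e1 : ∑ i, ∑ j, x (i, j) * ∑ k, ∑ l, R i j k l * x (k, l) =
      ∑ i, ∑ j, x (i, j) * ∑ k, ∑ l, R i j k l * ((x (k, l) - x (l, k)) / 2) := by
    refine Finset.sum_congr rfl fun i _ => Finset.sum_congr rfl fun j _ => ?_
    rw [inner_skew hR]
  -- exchange of the two pairs
  have sw : ∀ u v : J × J → ℝ, ∑ i, ∑ j, u (i, j) * ∑ k, ∑ l, R i j k l * v (k, l) =
      ∑ k, ∑ l, v (k, l) * ∑ i, ∑ j, R k l i j * u (i, j) := by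
    intro u v
    have a1 : ∑ i, ∑ j, u (i, j) * ∑ k, ∑ l, R i j k l * v (k, l) =
        ∑ p : J × J, ∑ q : J × J, R p.1 p.2 q.1 q.2 * (u p * v q) := by
      rw [Fintype.sum_prod_type]
      refine Finset.sum_congr rfl fun i _ => Finset.sum_congr rfl fun j _ => ?_
      rw [Fintype.sum_prod_type, Finset.mul_sum]
      refine Finset.sum_congr rfl fun k _ => ?_
      rw [Finset.mul_sum]
      refine Finset.sum_congr rfl fun l _ => ?_
      ring
    have a2 : ∑ k, ∑ l, v (k, l) * ∑ i, ∑ j, R k l i j * u (i, j) =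
        ∑ q : J × J, ∑ p : J × J, R p.1 p.2 q.1 q.2 * (u p * v q) := by
      rw [Fintype.sum_prod_type]
      refine Finset.sum_congr rfl fun k _ => Finset.sum_congr rfl fun l _ => ?_
      rw [Fintype.sum_prod_type, Finset.mul_sum]
      refine Finset.sum_congr rfl fun i _ => ?_
      rw [Finset.mul_sum]
      refine Finset.sum_congr rfl fun j _ => ?_
      rw [h2 i j k l]
      ring
    rw [a1, a2, Finset.sum_comm]
  have e2 := sw x (fun p => (x (p.1, p.2) - x (p.2, p.1)) / 2)
  have e3 : ∑ k, ∑ l, ((x (k, l) - x (l, k)) / 2) * ∑ i, ∑ j, R k l i j * x (i, j) =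
      ∑ k, ∑ l, ((x (k, l) - x (l, k)) / 2) *
        ∑ i, ∑ j, R k l i j * ((x (i, j) - x (j, i)) / 2) := by
    refine Finset.sum_congr rfl fun i _ => Finset.sum_congr rfl fun j _ => ?_
    rw [inner_skew hR]
  rw [e0, e1]
  refine e2.trans (e3.trans ?_)
  refine Finset.sum_congr rfl fun i _ => Finset.sum_congr rfl fun j _ => ?_
  rw [Finset.mul_sum]
  refine Finset.sum_congr rfl fun k _ => ?_
  rw [Finset.mul_sum]
  refine Finset.sum_congr rfl fun l _ => ?_
  ring

end

/-- K2: nonnegative curvature operators -/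
theorem fk : FKStm := by
  intro J _ _ R hR hF
  obtain ⟨h1, h2, h3⟩ := id hR
  have hs : ∀ p q : J × J, opM R p q = opM R q p := fun p q => h2 q.1 q.2 p.1 p.2
  have hp : ∀ x, 0 ≤ qf (opM R) x := by
    intro x
    rw [qf_opM hR]
    exact hF (fun a b => (x (a, b) - x (b, a)) / 2) fun a b => by ring
  obtain ⟨m, a, ha⟩ := psd_dec hs hp
  have ha' : ∀ i j k l, R i j k l = ∑ t, a t (i, j) * a t (k, l) := fun i j k l =>
    ha (i, j) (k, l)
  have hskew : ∀ t i j, a t (j, i) = - a t (i, j) := by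
    intro t i j
    have hz : ∑ t, (a t (i, j) + a t (j, i)) ^ 2 = 0 := by
      have e : ∑ t, (a t (i, j) + a t (j, i)) ^ 2 = ∑ t, a t (i, j) * a t (i, j) +
          ∑ t, a t (i, j) * a t (j, i) + ∑ t, a t (j, i) * a t (i, j) +
          ∑ t, a t (j, i) * a t (j, i) := by
        rw [← Finset.sum_add_distrib, ← Finset.sum_add_distrib, ← Finset.sum_add_distrib]
        exact Finset.sum_congr rfl fun t _ => by ring
      rw [e, ← ha', ← ha', ← ha', ← ha', h1 i j i j, h1 i j j i]
      ring
    have := (Finset.sum_eq_zero_iff_of_nonneg (fun t _ => sq_nonneg _)).1 hz t (Finset.mem_univ t)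
    have h0 : a t (i, j) + a t (j, i) = 0 := by
      simpa using this
    linarith
  refine ⟨0, 0, m, fun s => s.elim0, fun s => s.elim0, fun t => Matrix.of fun i j => a t (i, j),
    fun s => s.elim0, fun s => s.elim0, ?_, fun s => s.elim0, fun s => s.elim0, ?_⟩
  · intro t i j
    exact hskew t i j
  · intro i j k l
    simp only [Finset.univ_eq_empty, Finset.sum_empty, zero_add, Matrix.of_apply]
    rw [Finset.sum_sub_distrib, ← ha', ← ha']
    have b1 := h3 i j k l
    have b2 := h1 k j i l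
    have b3 := h1 i k j l
    linarith

/-- K3: one Lorentzian form -/
theorem one : OneStm := by
  intro J _ _ R hR
  obtain ⟨r, A0, A, hs0, hs, hp, hb, he⟩ := hR
  have hc : Real.sqrt (2 / 3) * Real.sqrt (2 / 3) = 2 / 3 := Real.mul_self_sqrt (by norm_num)
  have hc0 : 0 ≤ Real.sqrt (2 / 3) := Real.sqrt_nonneg _
  set c := Real.sqrt (2 / 3) with hcd
  have hq : ∀ (M : Matrix J J ℝ) (x : J → ℝ), ∑ i, ∑ j, (c • M) i j * (x i * x j) =
      c * ∑ i, ∑ j, M i j * (x i * x j) := by
    intro M x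
    rw [Finset.mul_sum]
    refine Finset.sum_congr rfl fun i _ => ?_
    rw [Finset.mul_sum]
    refine Finset.sum_congr rfl fun j _ => ?_
    rw [Matrix.smul_apply, smul_eq_mul]
    ring
  refine ⟨1, r, 0, fun _ => c • A0, fun _ k => c • A k, fun t => t.elim0, ?_, ?_,
    fun t => t.elim0, ?_, ?_, ?_⟩
  · intro s i j
    show c * A0 i j = c * A0 j i
    rw [hs0 i j]
  · intro s k i j
    show c * A k i j = c * A k j i
    rw [hs k i j]
  · intro s x
    rw [hq]
    exact mul_nonneg hc0 (hp x)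
  · intro s x
    simp only [hq, mul_pow]
    rw [← Finset.mul_sum]
    exact mul_le_mul_of_nonneg_left (hb x) (sq_nonneg c)
  · intro i j k l
    have hB : ∀ i j k l, Bf (c • A0) (fun k => c • A k) i j k l = 2 / 3 * Bf A0 A i j k l := by
      intro i j k l
      unfold Bf
      simp only [Matrix.smul_apply, smul_eq_mul]
      have e : ∑ a, c * A a i j * (c * A a k l) = 2 / 3 * ∑ a, A a i j * A a k l := by
        rw [Finset.mul_sum]
        refine Finset.sum_congr rfl fun a _ => ?_
        rw [← hc]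
        ring
      rw [e, ← hc]
      ring
    simp only [Finset.univ_eq_empty, Finset.sum_empty, add_zero, Finset.univ_unique,
      Finset.sum_singleton]
    rw [hB, hB]
    have := he i j k l
    linarith

end Pool.Agent.Helper20.HZ
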